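import Pool.Agent.L7h3.CE.Stm
import Pool.Agent.Helper391.Lg.P_countable_of_conn

/-!
# Project CE: part MAIN1
-/

set_option autoImplicit false

universe u v

namespace Pool.Agent.L7h78.CE

open Set Pool.Agent.Helper391.Lg
open Pool.Agent.L7h3.CE hiding Good
open Pool.Agent.L7h3.CE (Good)

/-- a sequence is not eventually in two disjoint sets -/
theorem not_ev {V : Type*} {r : ℕ → V} {A B : Set V} (h : Disjoint A B) (hA : Ev r A) :
    ¬ Ev r B := by
  rintro ⟨N, hN⟩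
  obtain ⟨M, hM⟩ := hA
  exact Set.disjoint_left.1 h (hM (max M N) (le_max_left _ _)) (hN (max M N) (le_max_right _ _))

theorem s_MAIN1 (h1 : S_SOLU.{u}) (h2 : S_NEST.{u}) (h3 : S_SPLIT.{u}) (h4 : S_SCON.{u})
    (h5 : S_RAY.{u}) (h6 : S_EVQ.{u}) : S_MAIN1.{u} := by
  intro V _ G hG ⟨r, hr, hs⟩
  by_contra hgood
  have hbad : Bad G Set.univ := ⟨h1 V G hG, hgood⟩
  have : Countable V := countable_of_conn G hG.lf hG.conn
  obtain ⟨v, hv⟩ := exists_surjective_nat V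
  have step : ∀ (D : Set V) (n : ℕ), Bad G D → ∃ D' ⊆ D, Bad G D' ∧ v n ∉ D' ∧ ¬ Ev (r n) D' := by
    intro D n hD
    obtain ⟨D1, hD1, hdis, hb1⟩ := h2 V G hG D hD {v n} (Set.finite_singleton _)
    have hv1 : v n ∉ D1 := fun h => Set.disjoint_left.1 hdis h rfl
    obtain ⟨D2, hD2, D3, hD3, hd, hb2, hb3⟩ := h3 V G hG D1 hb1
    by_cases hE : Ev (r n) D2
    · exact ⟨D3, hD3.trans hD1, hb3, fun h => hv1 (hD3 h), not_ev hd hE⟩
    · exact ⟨D2, hD2.trans hD1, hb2, fun h => hv1 (hD2 h), hE⟩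
  choose! f hf1 hf2 hf3 hf4 using step
  let D : ℕ → Set V := fun n => Nat.rec Set.univ (fun n D => f D n) n
  have hDs : ∀ n, D (n + 1) = f (D n) n := fun n => rfl
  have hDb : ∀ n, Bad G (D n) := by
    intro n
    induction n with
    | zero => exact hbad
    | succ n ih =>
      rw [hDs]
      exact hf2 _ _ ih
  obtain ⟨s, hs1, hs2⟩ := h5 V G hG.lf D (fun n => by rw [hDs]; exact hf1 _ _ (hDb n))
    (fun n => (hDb n).1.ne)
    (fun x => by
      obtain ⟨n, rfl⟩ := hv x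
      exact ⟨n + 1, by rw [hDs]; exact hf3 _ _ (hDb n)⟩)
    (fun n => h4 V G (D n) (hDb n).1)
  obtain ⟨m, hm⟩ := hs s hs1
  have h7 := h6 V G (D (m + 1)) (hDb (m + 1)).1.fin s (r m) hs1 (hr m) hm (hs2 (m + 1))
  rw [hDs] at h7
  exact hf4 _ _ (hDb m) h7

end Pool.Agent.L7h78.CE
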