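import Pool.Agent.L7h3.CE.Stm2

/-!
# Project CE: edges of the clique expansion
-/

set_option autoImplicit false

universe u

namespace Pool.Agent.L7h78.CE

open Set Pool.Agent.Helper391.Lg
open Pool.Agent.L7h3.CE hiding Good

variable {V : Type u} {G : SimpleGraph V} {k : V → ℕ}

/-- an edge of `pull A` -/
theorem pull_elim {A : Set (Sym2 (QV G k))}
    (hA : ∀ e ∈ A, e ∈ (QG G k).edgeSet ∧ ∀ x ∈ e, x ∉ F0 G k) {e : Sym2 V}
    (he : e ∈ pull G k A) : ∃ a b : V, e = s(a, b) ∧ G.Adj a b ∧ k a ≠ k b ∧ k a ≠ 0 ∧ k b ≠ 0 ∧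
      ∃ p q : QV G k, p.1 = (k a, Sum.inl e) ∧ q.1 = (k b, Sum.inl e) ∧ s(p, q) ∈ A := by
  obtain ⟨p, q, hp, hq, h⟩ := he
  have h1 : (QG G k).Adj p q := (hA _ h).1
  have h2 := (hA _ h).2
  have hp0 : p.1.1 ≠ 0 := h2 p (Sym2.mem_mk_left p q)
  have hq0 : q.1.1 ≠ 0 := h2 q (Sym2.mem_mk_right p q)
  have hpq : p.1.1 ≠ q.1.1 := fun h3 => h1.1 (Subtype.ext (Prod.ext h3 (hp.trans hq.symm)))
  obtain ⟨a, ha, ha2⟩ := (p.2.2 e hp).2.1
  obtain ⟨b, hb, hb2⟩ := (q.2.2 e hq).2.1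
  have ha3 : k a = p.1.1 := ha2
  have hb3 : k b = q.1.1 := hb2
  have hab : a ≠ b := by
    rintro rfl
    exact hpq (ha3.symm.trans hb3)
  have hE : e = s(a, b) := (Sym2.mem_and_mem_iff hab).1 ⟨ha, hb⟩
  refine ⟨a, b, hE, ?_, by rw [ha3, hb3]; exact hpq, by rw [ha3]; exact hp0,
    by rw [hb3]; exact hq0, p, q, Prod.ext ha3.symm hp, Prod.ext hb3.symm hq, h⟩
  have h4 := (p.2.2 e hp).1
  rw [hE] at h4
  exact h4

theorem dr_A {A B : Set (Sym2 (QV G k))} (h : DR G k A B) :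
    ∀ e ∈ A, e ∈ (QG G k).edgeSet ∧ ∀ x ∈ e, x ∉ F0 G k := by
  intro e he
  have h1 : e ∈ A ∪ B := Or.inl he
  rw [h.union] at h1
  exact h1

theorem dr_B {A B : Set (Sym2 (QV G k))} (h : DR G k A B) :
    ∀ e ∈ B, e ∈ (QG G k).edgeSet ∧ ∀ x ∈ e, x ∉ F0 G k := by
  intro e he
  have h1 : e ∈ A ∪ B := Or.inr he
  rw [h.union] at h1
  exact h1

theorem pull_ins {A : Set (Sym2 (QV G k))}
    (hA : ∀ e ∈ A, e ∈ (QG G k).edgeSet ∧ ∀ x ∈ e, x ∉ F0 G k) :
    pull G k A ⊆ ins G {v | k v ≠ 0} := by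
  intro e he
  obtain ⟨a, b, rfl, hab, -, h1, h2, -⟩ := pull_elim hA he
  refine ⟨hab, fun v hv => ?_⟩
  rcases Sym2.mem_iff.1 hv with rfl | rfl
  · exact h1
  · exact h2

theorem tot_ins {A : Set (Sym2 (QV G k))} {A' B' : ℕ → Set (Sym2 V)}
    (hA : ∀ e ∈ A, e ∈ (QG G k).edgeSet ∧ ∀ x ∈ e, x ∉ F0 G k)
    (h : ∀ j, j ≠ 0 → (∃ v, k v = j) → Dec G (Fib k j) (A' j) (B' j)) :
    tot G k A A' ⊆ ins G {v | k v ≠ 0} := by
  rintro e (he | ⟨j, hj, hv, he⟩)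
  · exact pull_ins hA he
  · have h1 := (h j hj hv).subA he
    refine ⟨h1.1, fun v hv => ?_⟩
    have h2 : k v = j := h1.2 v hv
    change k v ≠ 0
    rw [h2]
    exact hj

/-- an edge between two classes is not inside a class -/
theorem pull_not_ins {A : Set (Sym2 (QV G k))}
    (hA : ∀ e ∈ A, e ∈ (QG G k).edgeSet ∧ ∀ x ∈ e, x ∉ F0 G k) {e : Sym2 V}
    (he : e ∈ pull G k A) {j : ℕ} (h : e ∈ ins G (Fib k j)) : False := by
  obtain ⟨a, b, rfl, hab, hne, -⟩ := pull_elim hA he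
  have h1 : k a = j := h.2 a (Sym2.mem_mk_left a b)
  have h2 : k b = j := h.2 b (Sym2.mem_mk_right a b)
  exact hne (h1.trans h2.symm)

theorem s_QD : S_QD.{u} := by
  intro V G k _ A B hD A' B' hdec
  have hdec' : ∀ j, j ≠ 0 → (∃ v, k v = j) → Dec G (Fib k j) (A' j) (B' j) := hdec
  refine ⟨tot_ins (dr_A hD) hdec, ?_, ?_⟩
  · rintro e (he | ⟨j, hj, hv, he⟩)
    · exact pull_ins (dr_B hD) he
    · have h1 := (hdec j hj hv).subB he
      refine ⟨h1.1, fun v hv => ?_⟩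
      have h2 : k v = j := h1.2 v hv
      change k v ≠ 0
      rw [h2]
      exact hj
  · rw [Set.disjoint_left]
    rintro e (he | ⟨j, hj, hv, he⟩) (he' | ⟨j', hj', hv', he'⟩)
    · obtain ⟨a, b, hE, hab, hne, -, -, p, q, hp, hq, h⟩ := pull_elim (dr_A hD) he
      obtain ⟨a', b', hE', hab', hne', -, -, p', q', hp', hq', h'⟩ := pull_elim (dr_B hD) he'
      have h1 : s(p, q) = s(p', q') := by
        have h2 : s(a, b) = s(a', b') := hE.symm.trans hE'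
        rcases Sym2.eq_iff.1 h2 with ⟨rfl, rfl⟩ | ⟨rfl, rfl⟩
        · rw [Subtype.ext (hp.trans hp'.symm), Subtype.ext (hq.trans hq'.symm)]
        · rw [Subtype.ext (hp.trans hq'.symm), Subtype.ext (hq.trans hp'.symm), Sym2.eq_swap]
      rw [h1] at h
      exact Set.disjoint_left.1 hD.disj h h'
    · exact pull_not_ins (dr_A hD) he ((hdec j' hj' hv').subB he')
    · exact pull_not_ins (dr_B hD) he' ((hdec j hj hv).subA he)
    · have h1 := (hdec j hj hv).subA he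
      have h2 := (hdec j' hj' hv').subB he'
      induction e using Sym2.ind with
      | _ x y =>
        have h3 : k x = j := h1.2 x (Sym2.mem_mk_left x y)
        have h4 : k x = j' := h2.2 x (Sym2.mem_mk_left x y)
        have h5 : j = j' := h3.symm.trans h4
        subst h5
        exact Set.disjoint_left.1 (hdec j hj hv).disj he he'

end Pool.Agent.L7h78.CE
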