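import Pool.Agent.L7h78.CE.Q0

/-!
# Project CE: parts QC and Q1
-/

set_option autoImplicit false

universe u

namespace Pool.Agent.L7h78.CE

open Set Pool.Agent.Helper391.Lg
open Pool.Agent.L7h3.CE hiding Good

variable {V : Type u} {G : SimpleGraph V} {k : V → ℕ}

theorem reach_mono {W : Type*} {S T : Set (Sym2 W)} (h : S ⊆ T) {a b : W}
    (hab : (SimpleGraph.fromEdgeSet S).Reachable a b) :
    (SimpleGraph.fromEdgeSet T).Reachable a b :=
  hab.mono (SimpleGraph.fromEdgeSet_mono h)

/-- the vertex `(k a, inr 0)` of the expansion -/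
def vq (G : SimpleGraph V) (k : V → ℕ) (a : V) : QV G k :=
  ⟨(k a, Sum.inr 0), ⟨a, rfl⟩, fun e h => by cases h⟩

/-- Translation of paths of the expansion: `T` connects every class `p.1.1`, `p ∈ P`, and contains the edges of
`G` that belong to the edges of `A`. -/
theorem translate {A : Set (Sym2 (QV G k))} {T : Set (Sym2 V)} {P : QV G k → Prop}
    (hcl : ∀ p : QV G k, P p → ∀ a b, k a = p.1.1 → k b = p.1.1 →
      (SimpleGraph.fromEdgeSet T).Reachable a b)
    (hA : ∀ e ∈ A, e ∈ (QG G k).edgeSet ∧ ∀ x ∈ e, x ∉ F0 G k)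
    (hP : ∀ e ∈ A, ∀ x ∈ e, P x)
    (hT : ∀ e ∈ pull G k A, e ∈ T) {p q : QV G k} (hp : P p)
    (h : (SimpleGraph.fromEdgeSet A).Reachable p q) :
    ∀ a b, k a = p.1.1 → k b = q.1.1 → (SimpleGraph.fromEdgeSet T).Reachable a b := by
  have h1 := (SimpleGraph.reachable_iff_reflTransGen p q).1 h
  clear h
  induction h1 with
  | refl => exact hcl p hp
  | @tail x y _ hxy ih =>
    intro a b ha hb
    have hxy' : s(x, y) ∈ A := ((SimpleGraph.fromEdgeSet_adj A).1 hxy).1
    have hne : x ≠ y := ((SimpleGraph.fromEdgeSet_adj A).1 hxy).2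
    have hPx := hP _ hxy' x (Sym2.mem_mk_left x y)
    have hPy := hP _ hxy' y (Sym2.mem_mk_right x y)
    by_cases hc : x.1.1 = y.1.1
    · exact ih a b ha (hb.trans hc.symm)
    · have h2 : (QG G k).Adj x y := (hA _ hxy').1
      rcases h2.2 with h3 | ⟨h3, e, he⟩
      · exact absurd h3 hc
      · have hpl : e ∈ pull G k A := ⟨x, y, he, h3.symm.trans he, hxy'⟩
        have heT := hT e hpl
        obtain ⟨u, hu, hu2⟩ := (x.2.2 e he).2.1
        obtain ⟨v, hv, hv2⟩ := (y.2.2 e (h3.symm.trans he)).2.1
        have hu3 : k u = x.1.1 := hu2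
        have hv3 : k v = y.1.1 := hv2
        have huv : u ≠ v := by
          rintro rfl
          exact hc (hu3.symm.trans hv3)
        have hE : e = s(u, v) := (Sym2.mem_and_mem_iff huv).1 ⟨hu, hv⟩
        have h4 := ih a u ha hu3
        have h5 : (SimpleGraph.fromEdgeSet T).Adj u v := by
          rw [SimpleGraph.fromEdgeSet_adj]
          exact ⟨by rw [← hE]; exact heT, huv⟩
        exact (h4.trans h5.reachable).trans (hcl y hPy v b hv3 hb)

theorem s_QC : S_QC.{u} := by
  intro V G k _ A B hD A' B' hdec a b ha hb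
  refine translate (A := A) (P := fun p => p.1.1 ≠ 0) (p := vq G k a) (q := vq G k b) ?_
    (dr_A hD) ?_ ?_ ha (hD.conn _ ha _ hb) a b rfl rfl
  · intro p hp x y hx hy
    refine reach_mono ?_ ((hdec p.1.1 hp p.2.1).conn x hx y hy)
    intro e he
    exact Or.inr ⟨p.1.1, hp, p.2.1, he⟩
  · intro e he x hx
    exact (dr_A hD e he).2 x hx
  · intro e he
    exact Or.inl he

theorem s_Q1 : S_Q1.{u} := by
  intro V G k hQ
  constructor
  · intro p
    have h1 : ((QG G k).neighborSet p) ⊆ {q | q.1.1 = p.1.1} ∪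
        {q | q.1.2 = p.1.2 ∧ ∃ e, p.1.2 = Sum.inl e} := by
      intro q hq
      rcases hq.2 with h | h
      · exact Or.inl h.symm
      · exact Or.inr ⟨h.1.symm, h.2⟩
    refine Set.Finite.subset (Set.Finite.union ?_ ?_) h1
    · -- a clique is finite
      have h2 : ((fun q : QV G k => q.1.2) '' {q | q.1.1 = p.1.1}).Finite := by
        refine Set.Finite.subset ((((hQ.fin p.1.1).image (Sum.inl : Sym2 V → Sym2 V ⊕ Fin 5))).union
          (Set.finite_range (Sum.inr : Fin 5 → Sym2 V ⊕ Fin 5))) ?_
        rintro _ ⟨q, hq, rfl⟩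
        have hq' : q.1.1 = p.1.1 := hq
        rcases h3 : q.1.2 with e | i
        · refine Or.inl ⟨e, ?_, h3.symm⟩
          rw [← hq']
          exact q.2.2 e h3
        · exact Or.inr ⟨i, h3.symm⟩
      refine Set.Finite.of_finite_image h2 ?_
      intro q hq r hr hqr
      exact Subtype.ext (Prod.ext (hq.trans hr.symm) hqr)
    · by_cases he : ∃ e, p.1.2 = Sum.inl e
      · obtain ⟨e, he⟩ := he
        have h2 : ((fun q : QV G k => q.1.1) '' {q | q.1.2 = p.1.2 ∧ ∃ e, p.1.2 = Sum.inl e}).Finite := by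
          have h4 : (k '' {v | v ∈ e}).Finite := by
            refine Set.Finite.image _ ?_
            induction e using Sym2.ind with
            | _ x y =>
              refine Set.Finite.subset ((Set.finite_singleton y).insert x) ?_
              intro v hv
              exact Sym2.mem_iff.1 hv
          refine h4.subset ?_
          rintro _ ⟨q, hq, rfl⟩
          obtain ⟨v, hv, hv2⟩ := (q.2.2 e (hq.1.trans he)).2.1
          exact ⟨v, hv, hv2⟩
        refine Set.Finite.of_finite_image h2 ?_
        intro q hq r hr hqr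
        exact Subtype.ext (Prod.ext hqr (hq.1.trans hr.1.symm))
      · refine Set.Finite.subset Set.finite_empty ?_
        rintro q ⟨-, h⟩
        exact he h
  · -- connected
    have hcl : ∀ p q : QV G k, p.1.1 = q.1.1 → (QG G k).Reachable p q := by
      intro p q h
      by_cases hpq : p = q
      · rw [hpq]
      · exact SimpleGraph.Adj.reachable (G := QG G k) ⟨hpq, Or.inl h⟩
    have hmain : ∀ a b, G.Reachable a b → (QG G k).Reachable (vq G k a) (vq G k b) := by
      intro a b hab
      have h1 := (SimpleGraph.reachable_iff_reflTransGen a b).1 hab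
      clear hab
      induction h1 with
      | refl => exact SimpleGraph.Reachable.refl _
      | @tail x y _ hxy ih =>
        refine ih.trans ?_
        by_cases hc : k x = k y
        · exact hcl _ _ hc
        · have hx : s(x, y) ∈ bd G (Fib k (k x)) :=
            ⟨hxy, ⟨x, Sym2.mem_mk_left x y, rfl⟩, ⟨y, Sym2.mem_mk_right x y, fun h => hc h.symm⟩⟩
          have hy : s(x, y) ∈ bd G (Fib k (k y)) :=
            ⟨hxy, ⟨y, Sym2.mem_mk_right x y, rfl⟩, ⟨x, Sym2.mem_mk_left x y, fun h => hc h⟩⟩
          let P : QV G k := ⟨(k x, Sum.inl s(x, y)), ⟨x, rfl⟩, fun e he => by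
            cases he
            exact hx⟩
          let Q : QV G k := ⟨(k y, Sum.inl s(x, y)), ⟨y, rfl⟩, fun e he => by
            cases he
            exact hy⟩
          have hPQ : (QG G k).Adj P Q :=
            ⟨fun h => hc (congrArg (fun z : QV G k => z.1.1) h), Or.inr ⟨rfl, _, rfl⟩⟩
          exact ((hcl (vq G k x) P rfl).trans hPQ.reachable).trans (hcl Q (vq G k y) rfl)
    intro p q
    obtain ⟨a, ha⟩ := p.2.1
    obtain ⟨b, hb⟩ := q.2.1
    exact ((hcl p (vq G k a) ha.symm).trans (hmain a b (hQ.four.conn a b))).trans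
      (hcl (vq G k b) q hb)

end Pool.Agent.L7h78.CE
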