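import Pool.Agent.L7h3.CE.Stm2
import Pool.Agent.Helper391.Lg.P_decomp_reg

/-!
# Project CE: part QL
-/

set_option autoImplicit false

universe u

namespace Pool.Agent.L7h78.CE

open Set Pool.Agent.Helper391.Lg
open Pool.Agent.L7h3.CE hiding Good

theorem bd_compl {V : Type*} (G : SimpleGraph V) (U : Set V) : bd G Uᶜ = bd G U := by
  ext e
  constructor
  · rintro ⟨h1, ⟨x, hx, hx2⟩, y, hy, hy2⟩
    exact ⟨h1, ⟨y, hy, not_not.1 hy2⟩, x, hx, hx2⟩
  · rintro ⟨h1, ⟨x, hx, hx2⟩, y, hy, hy2⟩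
    exact ⟨h1, ⟨y, hy, hy2⟩, x, hx, not_not.2 hx2⟩

theorem s_QL : S_QL.{u} := by
  classical
  intro q1 q2 q3 q4a q4b qc qf qm qd V G hG D hsol hDc c hinf hcl hone
  let k : V → ℕ := fun v => if v ∈ D then c v + 1 else 0
  have hk1 : ∀ v, v ∈ D → k v = c v + 1 := fun v hv => if_pos hv
  have hk0 : ∀ v, v ∉ D → k v = 0 := fun v hv => if_neg hv
  have hkD : {v | k v ≠ 0} = D := by
    ext v
    constructor
    · intro hv
      by_contra h
      exact hv (hk0 v h)
    · intro hv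
      change k v ≠ 0
      rw [hk1 v hv]
      exact Nat.succ_ne_zero _
  have hF0 : Fib k 0 = Dᶜ := by
    ext v
    constructor
    · intro hv h
      have h1 : k v = 0 := hv
      rw [hk1 v h] at h1
      exact Nat.succ_ne_zero _ h1
    · intro hv
      exact hk0 v hv
  have hFs : ∀ j, Fib k (j + 1) = {v | v ∈ D ∧ c v = j} := by
    intro j
    ext v
    constructor
    · intro hv
      have h1 : k v = j + 1 := hv
      by_cases h : v ∈ D
      · rw [hk1 v h] at h1
        exact ⟨h, Nat.succ_injective h1⟩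
      · rw [hk0 v h] at h1
        exact absurd h1.symm (Nat.succ_ne_zero _)
    · rintro ⟨h1, h2⟩
      change k v = j + 1
      rw [hk1 v h1, h2]
  have hQ : Qu G k := by
    refine ⟨hG, ?_, ?_, ?_, ?_, ?_⟩
    · intro j
      rcases j with _ | j
      · rw [hF0, bd_compl]
        exact hsol.fin
      · rw [hFs]
        by_cases hj : j ∈ c '' D
        · exact (hcl j hj).1
        · refine Set.Finite.subset Set.finite_empty ?_
          rintro e ⟨-, ⟨v, -, hv⟩, -⟩
          exact hj ⟨v, hv.1, hv.2⟩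
    · intro hfin
      apply hinf
      have h1 : ((fun j : ℕ => j + 1) '' (c '' D)).Finite := by
        refine hfin.subset ?_
        rintro _ ⟨_, ⟨v, hv, rfl⟩, rfl⟩
        exact ⟨v, hk1 v hv⟩
      exact Set.Finite.of_finite_image h1 (Nat.succ_injective.injOn)
    · obtain ⟨v, hv⟩ := hDc
      exact ⟨v, hk0 v hv⟩
    · rw [hkD]
      exact hsol
    · intro J₀ hJ₀
      obtain ⟨J₁, h1, h2, h3⟩ := hone ((fun j : ℕ => j + 1) ⁻¹' J₀)
        (hJ₀.preimage Nat.succ_injective.injOn)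
      refine ⟨J₀ ∪ {0} ∪ (fun j : ℕ => j + 1) '' J₁, (hJ₀.union (Set.finite_singleton 0)).union
        (h1.image _), fun j hj => Or.inl (Or.inl hj), Or.inl (Or.inr rfl), ?_⟩
      have hset : ∀ x, k x ∉ J₀ ∪ {0} ∪ (fun j : ℕ => j + 1) '' J₁ ↔ x ∈ D ∧ c x ∉ J₁ := by
        intro x
        constructor
        · intro hx
          have hxD : x ∈ D := by
            by_contra h
            exact hx (Or.inl (Or.inr (hk0 x h)))
          refine ⟨hxD, fun h => hx (Or.inr ⟨c x, h, (hk1 x hxD).symm⟩)⟩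
        · rintro ⟨hxD, hx⟩ ((h | h) | ⟨j, hj, hj2⟩)
          · rw [hk1 x hxD] at h
            exact hx (h2 h)
          · rw [hk1 x hxD] at h
            exact Nat.succ_ne_zero _ h
          · rw [hk1 x hxD] at hj2
            have : j = c x := Nat.succ_injective hj2
            rw [← this] at hx
            exact hx hj
      intro a b ha hb
      have ha' := (hset a).1 ha
      have hb' := (hset b).1 hb
      have h4 := h3 a ha'.1 b hb'.1 ha'.2 hb'.2
      have h5 : {x | k x ∉ J₀ ∪ {0} ∪ (fun j : ℕ => j + 1) '' J₁} = {x | x ∈ D ∧ c x ∉ J₁} :=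
        Set.ext hset
      rw [h5]
      exact h4
  obtain ⟨hlf, hconn⟩ := q1 V G k hQ
  have hR := q3 V G k hQ
  have hne : (F0 G k).Nonempty := by
    obtain ⟨v, hv⟩ := hQ.zero
    exact ⟨⟨(0, Sum.inr 0), ⟨v, hv⟩, fun e h => by cases h⟩, rfl⟩
  have hI : Ipos (QG G k) (F0 G k) :=
    q4b (QV G k) (QG G k) (F0 G k) hlf (hR.inf 0) (q4a V G k hQ)
  obtain ⟨A, B, hu, hdis, hout, hcon, hfai⟩ := decomp_reg (QG G k) hlf (q2 V G k hQ) hconn (F0 G k)
    hne (fun _ : Fin 1 => C1 G k) hR hI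
  have hDR : DR G k A B := ⟨hu, hdis, hout, hcon 0, hfai 0⟩
  have hdec : ∀ j, ∃ A' B' : Set (Sym2 V), j ≠ 0 → (∃ v, k v = j) → Dec G (Fib k j) A' B' := by
    intro j
    by_cases hj : j ≠ 0 ∧ ∃ v, k v = j
    · obtain ⟨hj0, v, hv⟩ := hj
      obtain ⟨i, rfl⟩ := Nat.exists_eq_succ_of_ne_zero hj0
      have hvD : v ∈ D := by
        by_contra h
        rw [hk0 v h] at hv
        exact hj0 hv.symm
      rw [hk1 v hvD] at hv
      obtain ⟨A', B', h⟩ := (hcl i ⟨v, hvD, Nat.succ_injective hv⟩).2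
      refine ⟨A', B', fun _ _ => ?_⟩
      have h6 : Fib k i.succ = {v | v ∈ D ∧ c v = i} := hFs i
      rw [h6]
      exact h
    · exact ⟨∅, ∅, fun h1 h2 => absurd ⟨h1, h2⟩ hj⟩
  choose A' B' hdec using hdec
  obtain ⟨h1, h2, h3⟩ := qd V G k hQ A B hDR A' B' hdec
  have h4 := qc V G k hQ A B hDR A' B' hdec
  have h5 := qf V G k hQ A B hDR A' B' hdec
  have h6 := qm V G k hQ A B hDR A' B' hdec
  rw [hkD] at h1 h2 h5 h6
  have hD0 : ∀ a, a ∈ D → k a ≠ 0 := by
    intro a ha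
    rw [hk1 a ha]
    exact Nat.succ_ne_zero _
  exact ⟨tot G k A A', tot G k B B', h1, h2, h3,
    fun u hu v hv => h4 u v (hD0 u hu) (hD0 v hv), h5, h6⟩

end Pool.Agent.L7h78.CE
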